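import Pool.Agent.Helper6.MONO.Core

/-!
Canonical words for the triangle group: every word is equivalent to one whose alternating runs have
length at most the order of their two letters and in which a full run is never followed by a run of
length two. No group theory is used beyond the relations `i i = 1` and the braid relations.
-/

set_option autoImplicit false

namespace Pool.Agent.Helper21.C75

open Pool.Agent.Helper6.MONO (alt Dist)

abbrev W : Type := List (Fin 3)

/-- an equivalence relation on words containing the relations of the triangle group; `M i j` is the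
order of the pair `i, j` -/
structure Cong (M : Fin 3 → Fin 3 → ℕ) (E : W → W → Prop) : Prop where
  refl : ∀ u, E u u
  symm : ∀ u v, E u v → E v u
  trans : ∀ u v w, E u v → E v w → E u w
  app : ∀ a u v b, E u v → E (a ++ u ++ b) (a ++ v ++ b)
  inv : ∀ i, E [i, i] []
  brd : ∀ i j, i ≠ j → E (alt i j (M i j)) (alt j i (M i j))

/-- sum of (position + 1) over the positions whose letter and both neighbours are distinct -/
def dsum : ℕ → W → ℕ
  | k, a :: b :: c :: t =>
      (if a ≠ b ∧ b ≠ c ∧ a ≠ c then k + 1 else 0) + dsum (k + 1) (b :: c :: t)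
  | _, _ => 0

theorem dsum_nil (k : ℕ) : dsum k [] = 0 := rfl
theorem dsum_one (k : ℕ) (a : Fin 3) : dsum k [a] = 0 := rfl
theorem dsum_two (k : ℕ) (a b : Fin 3) : dsum k [a, b] = 0 := rfl
theorem dsum_cons (k : ℕ) (a b c : Fin 3) (t : W) : dsum k (a :: b :: c :: t) =
    (if a ≠ b ∧ b ≠ c ∧ a ≠ c then k + 1 else 0) + dsum (k + 1) (b :: c :: t) := rfl

/-- cutting at two adjacent letters -/
theorem dsum_split (k : ℕ) (u v : W) (x y : Fin 3) :
    dsum k (u ++ x :: y :: v) = dsum k (u ++ [x, y]) + dsum (k + u.length) (x :: y :: v) := by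
  induction u generalizing k with
  | nil => simp [dsum_two]
  | cons a u ih =>
    have h := ih (k + 1)
    have e1 : k + 1 + u.length = k + (a :: u).length := by simp only [List.length_cons]; omega
    rw [e1] at h
    match u, h with
    | [], h =>
      simp only [List.nil_append, List.cons_append, dsum_cons, dsum_two] at h ⊢
      omega
    | [b], h =>
      simp only [List.nil_append, List.cons_append, dsum_cons, dsum_two] at h ⊢
      omega
    | b :: c :: u, h =>
      simp only [List.cons_append, dsum_cons] at h ⊢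
      omega

/-! ### alternating words -/

theorem alt_zero (i j : Fin 3) : alt i j 0 = [] := rfl
theorem alt_succ (i j : Fin 3) (n : ℕ) : alt i j (n + 1) = i :: alt j i n := rfl

theorem alt_length (i j : Fin 3) (n : ℕ) : (alt i j n).length = n := by
  induction n generalizing i j with
  | zero => rfl
  | succ n ih => rw [alt_succ, List.length_cons, ih]

/-- last letter of `alt i j (n + 1)` -/
def lst (i j : Fin 3) (n : ℕ) : Fin 3 := if n % 2 = 0 then i else j

theorem lst_zero (i j : Fin 3) : lst i j 0 = i := rfl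
theorem lst_succ (i j : Fin 3) (n : ℕ) : lst i j (n + 1) = lst j i n := by
  unfold lst
  rcases Nat.mod_two_eq_zero_or_one n with h | h
  · have : (n + 1) % 2 = 1 := by omega
    simp [h, this]
  · have : (n + 1) % 2 = 0 := by omega
    simp [h, this]

theorem alt_last (i j : Fin 3) (n : ℕ) : alt i j (n + 1) = alt i j n ++ [lst i j n] := by
  induction n generalizing i j with
  | zero => rfl
  | succ n ih =>
    rw [alt_succ, ih, alt_succ i j n, lst_succ]
    rfl

theorem alt_add (i j : Fin 3) (m n : ℕ) :
    alt i j (m + n) = alt i j m ++ (if m % 2 = 0 then alt i j n else alt j i n) := by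
  induction m generalizing i j with
  | zero => simp [alt_zero]
  | succ m ih =>
    have e : m + 1 + n = m + n + 1 := by omega
    rw [e, alt_succ, ih, alt_succ]
    rcases Nat.mod_two_eq_zero_or_one m with h | h
    · have h' : (m + 1) % 2 = 1 := by omega
      simp [h, h']
    · have h' : (m + 1) % 2 = 0 := by omega
      simp [h, h']

/-- the sum of an alternating word followed by two letters -/
theorem dsum_alt (i j x y : Fin 3) (k n : ℕ) :
    dsum k (alt i j (n + 2) ++ [x, y]) =
      (if lst i j n ≠ lst j i n ∧ lst j i n ≠ x ∧ lst i j n ≠ x then k + n + 1 else 0) +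
      (if lst j i n ≠ x ∧ x ≠ y ∧ lst j i n ≠ y then k + n + 2 else 0) := by
  induction n generalizing i j k with
  | zero =>
    show dsum k [i, j, x, y] = _
    simp only [dsum_cons, dsum_two, lst_zero, Nat.add_zero]
  | succ n ih =>
    have e : alt i j (n + 1 + 2) ++ [x, y] = i :: j :: i :: (alt j i n ++ [x, y]) := rfl
    have e2 : j :: i :: (alt j i n ++ [x, y]) = alt j i (n + 2) ++ [x, y] := rfl
    have h0 : ¬ (i ≠ j ∧ j ≠ i ∧ i ≠ i) := by simp
    rw [e, dsum_cons, if_neg h0, Nat.zero_add, e2, ih, lst_succ, lst_succ]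
    have e3 : k + 1 + n + 1 = k + (n + 1) + 1 := by omega
    have e4 : k + 1 + n + 2 = k + (n + 1) + 2 := by omega
    rw [e3, e4]

theorem lst_mem (i j : Fin 3) (n : ℕ) : lst i j n = i ∨ lst i j n = j := by
  unfold lst
  split
  · exact Or.inl rfl
  · exact Or.inr rfl

theorem lst_ne {i j : Fin 3} (h : i ≠ j) (n : ℕ) : lst i j n ≠ lst j i n := by
  unfold lst
  split
  · exact h
  · exact h.symm

/-- the two orders of the last two letters -/
theorem lst_cases (i j : Fin 3) (n : ℕ) :
    (lst i j n = i ∧ lst j i n = j) ∨ (lst i j n = j ∧ lst j i n = i) := by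
  unfold lst
  split
  · exact Or.inl ⟨rfl, rfl⟩
  · exact Or.inr ⟨rfl, rfl⟩

/-- rewriting a full run followed by a run of length two lowers the sum -/
theorem dsum_lt (u v : W) (a b c : Fin 3) (n : ℕ) (hab : a ≠ b) (hca : c ≠ a) (hcb : c ≠ b)
    (hu : u = [] ∨ ∃ u', u = u' ++ [c]) :
    dsum 0 (u ++ (alt b a (n + 2) ++ [c, lst a b n]) ++ v) <
      dsum 0 (u ++ (alt a b (n + 2) ++ [c, lst a b n]) ++ v) := by
  -- common tail
  have hT : ∀ i j : Fin 3, dsum 0 (u ++ (alt i j (n + 2) ++ [c, lst a b n]) ++ v) =
      dsum 0 (u ++ (alt i j (n + 2) ++ [c, lst a b n])) +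
        dsum (u.length + (n + 2)) (c :: lst a b n :: v) := by
    intro i j
    have h := dsum_split 0 (u ++ alt i j (n + 2)) v c (lst a b n)
    have e1 : u ++ (alt i j (n + 2) ++ [c, lst a b n]) ++ v =
        u ++ alt i j (n + 2) ++ c :: lst a b n :: v := by simp
    have e2 : u ++ (alt i j (n + 2) ++ [c, lst a b n]) =
        u ++ alt i j (n + 2) ++ [c, lst a b n] := by simp
    have e3 : 0 + (u ++ alt i j (n + 2)).length = u.length + (n + 2) := by
      rw [List.length_append, alt_length]; omega
    rw [e1, e2, h, e3]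
  -- common cut at the first two letters of the run
  have hH : ∀ i j : Fin 3, dsum 0 (u ++ (alt i j (n + 2) ++ [c, lst a b n])) =
      dsum 0 (u ++ [i, j]) + dsum (0 + u.length) (alt i j (n + 2) ++ [c, lst a b n]) := by
    intro i j
    have h := dsum_split 0 u (alt i j n ++ [c, lst a b n]) i j
    exact h
  rw [hT, hT, hH, hH, dsum_alt, dsum_alt]
  -- head comparison
  have hh : dsum 0 (u ++ [b, a]) ≤ dsum 0 (u ++ [a, b]) + u.length := by
    rcases hu with rfl | ⟨u', rfl⟩
    · simp [dsum_two]
    · rcases List.eq_nil_or_concat u' with rfl | ⟨u'', y, rfl⟩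
      · simp only [List.nil_append, List.cons_append, dsum_cons, dsum_two]
        have h1 : c ≠ b ∧ b ≠ a ∧ c ≠ a := ⟨hcb, hab.symm, hca⟩
        have h2 : c ≠ a ∧ a ≠ b ∧ c ≠ b := ⟨hca, hab, hcb⟩
        rw [if_pos h1, if_pos h2]
        simp
      · have e1 : ∀ i j : Fin 3, u'' ++ [y] ++ [c] ++ [i, j] = (u'' ++ [y]) ++ c :: i :: [j] := by
          intro i j; simp
        have e2 : ∀ i j : Fin 3, dsum 0 (u'' ++ [y] ++ [c] ++ [i, j]) =
            dsum 0 ((u'' ++ [y]) ++ [c, i]) + dsum (0 + (u'' ++ [y]).length) (c :: i :: [j]) := by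
          intro i j
          rw [e1, dsum_split]
        have e3 : ∀ i : Fin 3, dsum 0 ((u'' ++ [y]) ++ [c, i]) =
            dsum 0 (u'' ++ [y, c]) + dsum (0 + u''.length) (y :: c :: [i]) := by
          intro i
          have : (u'' ++ [y]) ++ [c, i] = u'' ++ y :: c :: [i] := by simp
          rw [this, dsum_split]
        rw [List.concat_eq_append, e2, e2, e3, e3]
        simp only [dsum_cons, dsum_two, List.length_append, List.length_cons, List.length_nil]
        have h1 : c ≠ b ∧ b ≠ a ∧ c ≠ a := ⟨hcb, hab.symm, hca⟩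
        have h2 : c ≠ a ∧ a ≠ b ∧ c ≠ b := ⟨hca, hab, hcb⟩
        rw [if_pos h1, if_pos h2]
        split <;> split <;> omega
  -- tail comparison
  have hne := lst_ne hab n
  have hc1 : lst a b n ≠ c := by
    rcases lst_mem a b n with h | h <;> rw [h]
    · exact hca.symm
    · exact hcb.symm
  have hc2 : lst b a n ≠ c := by
    rcases lst_mem b a n with h | h <;> rw [h]
    · exact hcb.symm
    · exact hca.symm
  have p1 : lst b a n ≠ lst a b n ∧ lst a b n ≠ c ∧ lst b a n ≠ c := ⟨hne.symm, hc1, hc2⟩
  have p2 : ¬ (lst a b n ≠ c ∧ c ≠ lst a b n ∧ lst a b n ≠ lst a b n) := by simp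
  have p3 : lst a b n ≠ lst b a n ∧ lst b a n ≠ c ∧ lst a b n ≠ c := ⟨hne, hc2, hc1⟩
  have p4 : lst b a n ≠ c ∧ c ≠ lst a b n ∧ lst b a n ≠ lst a b n := ⟨hc2, hc1.symm, hne.symm⟩
  rw [if_pos p1, if_neg p2, if_pos p3, if_pos p4]
  omega

/-! ### canonical words -/

/-- the third letter -/
def third (n a : Fin 3) : Fin 3 := -(n + a)

theorem third_comm (n a : Fin 3) : third n a = third a n := by
  unfold third; rw [add_comm]

theorem third_ne (n a : Fin 3) (h : n ≠ a) : third n a ≠ n ∧ third n a ≠ a := by
  revert h; revert n a; decide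

theorem eq_third (n a c : Fin 3) (h : n ≠ a) (h1 : c ≠ n) (h2 : c ≠ a) : c = third n a := by
  revert h h1 h2; revert n a c; decide

/-- canonical words -/
structure Good (M : Fin 3 → Fin 3 → ℕ) (w : W) : Prop where
  ne : ∀ a, ¬ [a, a] <:+: w
  run : ∀ i j, i ≠ j → ¬ alt i j (M i j + 1) <:+: w
  full : ∀ a b c, a ≠ b → c ≠ a → c ≠ b → ∀ n, M a b = n + 2 →
    ¬ (alt a b (n + 2) ++ [c, lst a b n]) <:+: w

theorem Good.of_infix {M : Fin 3 → Fin 3 → ℕ} {w v : W} (h : Good M w) (hv : v <:+: w) :
    Good M v where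
  ne a ha := h.ne a (ha.trans hv)
  run i j hij ha := h.run i j hij (ha.trans hv)
  full a b c h1 h2 h3 n hn ha := h.full a b c h1 h2 h3 n hn (ha.trans hv)

theorem exists_min (P : W → Prop) (h : ∃ w, P w) :
    ∃ u, P u ∧ ∀ v, P v → u.length ≤ v.length ∧ (v.length = u.length → dsum 0 u ≤ dsum 0 v) := by
  classical
  have h1 : ∃ n, ∃ w, P w ∧ w.length = n := by
    obtain ⟨w, hw⟩ := h
    exact ⟨w.length, w, hw, rfl⟩
  have h2 : ∃ k, ∃ w, P w ∧ w.length = Nat.find h1 ∧ dsum 0 w = k := by
    obtain ⟨w, hw, hl⟩ := Nat.find_spec h1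
    exact ⟨dsum 0 w, w, hw, hl, rfl⟩
  obtain ⟨u, hu, hl, hd⟩ := Nat.find_spec h2
  refine ⟨u, hu, fun v hv => ⟨?_, fun hlv => ?_⟩⟩
  · rw [hl]
    exact Nat.find_min' h1 ⟨v, hv, rfl⟩
  · rw [hd]
    exact Nat.find_min' h2 ⟨v, hv, hlv.trans hl, rfl⟩

theorem Cong.app' {M : Fin 3 → Fin 3 → ℕ} {E : W → W → Prop} (hE : Cong M E) {u v : W} (a b : W)
    (h : E u v) : E (a ++ u ++ b) (a ++ v ++ b) := hE.app a u v b h

theorem exists_good (M : Fin 3 → Fin 3 → ℕ) (E : W → W → Prop) (hE : Cong M E)
    (hM : ∀ i j, i ≠ j → 2 ≤ M i j) (hs : ∀ i j, M i j = M j i) (w : W) :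
    ∃ u, E w u ∧ Good M u := by
  obtain ⟨u, hu, hmin⟩ := exists_min (fun v => E w v) ⟨w, hE.refl w⟩
  have hlen : ∀ v, E u v → u.length ≤ v.length := fun v hv => (hmin v (hE.trans _ _ _ hu hv)).1
  have hne : ∀ a, ¬ [a, a] <:+: u := by
    rintro a ⟨x, y, hxy⟩
    have h1 : E u (x ++ [] ++ y) := by
      rw [← hxy]
      exact hE.app x _ _ y (hE.inv a)
    have h2 := hlen _ h1
    rw [← hxy] at h2
    simp only [List.length_append, List.length_cons, List.length_nil] at h2
    omega
  have hrun : ∀ i j, i ≠ j → ¬ alt i j (M i j + 1) <:+: u := by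
    rintro i j hij ⟨x, y, hxy⟩
    obtain ⟨m, hm⟩ : ∃ m, M i j = m + 1 := ⟨M i j - 1, by have := hM i j hij; omega⟩
    have h1 : E (alt i j (M i j + 1)) (alt j i m) := by
      have a1 : E (alt i j (M i j) ++ [lst i j (M i j)]) (alt j i (M i j) ++ [lst i j (M i j)]) := by
        have := hE.app [] _ _ [lst i j (M i j)] (hE.brd i j hij)
        simpa using this
      have a2 : alt j i (M i j) ++ [lst i j (M i j)] = alt j i m ++ [lst j i m, lst j i m] ++ [] := by
        rw [hm, alt_last, lst_succ]
        simp
      have a3 : E (alt j i m ++ [lst j i m, lst j i m] ++ []) (alt j i m ++ [] ++ []) :=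
        hE.app _ _ _ _ (hE.inv _)
      rw [alt_last]
      refine hE.trans _ _ _ a1 ?_
      rw [a2]
      simpa using a3
    have h2 : E u (x ++ alt j i m ++ y) := by
      rw [← hxy]
      exact hE.app x _ _ y h1
    have h3 := hlen _ h2
    rw [← hxy] at h3
    simp only [List.length_append, alt_length] at h3
    omega
  refine ⟨u, hu, hne, hrun, ?_⟩
  rintro a b c hab hca hcb n hn ⟨x, y, hxy⟩
  -- the letter before the run
  have hx : x = [] ∨ ∃ u', x = u' ++ [c] := by
    rcases List.eq_nil_or_concat x with h | ⟨x', z, rfl⟩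
    · exact Or.inl h
    · refine Or.inr ⟨x', ?_⟩
      have hza : z ≠ a := by
        rintro rfl
        refine hne z ⟨x', alt b z (n + 1) ++ [c, lst z b n] ++ y, ?_⟩
        rw [← hxy, alt_succ z b (n + 1)]
        simp
      have hzb : z ≠ b := by
        rintro rfl
        refine hrun z a hab.symm ⟨x', [c, lst a z n] ++ y, ?_⟩
        rw [← hxy, hs z a, hn, alt_succ z a (n + 2)]
        simp
      have : z = c := by
        rw [eq_third a b z hab hza hzb, eq_third a b c hab hca hcb]
      rw [this, List.concat_eq_append]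
  have hbr : E (alt a b (n + 2)) (alt b a (n + 2)) := by
    have := hE.brd a b hab
    rwa [hn] at this
  have h1 : E u (x ++ (alt b a (n + 2) ++ [c, lst a b n]) ++ y) := by
    rw [← hxy]
    refine hE.app x _ _ y ?_
    have := hE.app [] _ _ [c, lst a b n] hbr
    simpa using this
  have h2 := (hmin _ (hE.trans _ _ _ hu h1)).2 (by
    rw [← hxy]
    simp only [List.length_append, alt_length])
  rw [← hxy] at h2
  exact absurd h2 (not_le.mpr (dsum_lt x y a b c n hab hca hcb hx))

/-! ### cutting into runs -/

/-- the word of a list of run lengths; `n` the letter where the first run starts (crossed), `a` the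
next letter; a run of length `m` contributes `m - 1` letters, its last letter starts the next run -/
def bwD : Fin 3 → Fin 3 → List ℕ → W
  | _, _, [] => []
  | n, a, m :: ms => alt n a (m - 1) ++ bwD (lst n a (m - 1)) (third n a) ms

/-- accepted lists of run lengths, `f` = the previous run was full -/
def okD (M : Fin 3 → Fin 3 → ℕ) : Bool → Fin 3 → Fin 3 → List ℕ → Prop
  | _, _, _, [] => True
  | f, n, a, m :: ms => (2 ≤ m ∧ m ≤ M n a ∧ (f = true → 3 ≤ m)) ∧
      okD M (decide (m = M n a)) (lst n a (m - 1)) (third n a) ms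

/-- maximal alternating prefix -/
theorem prefix_alt : ∀ (L : ℕ) (w : W), w.length ≤ L → (∀ a, ¬ [a, a] <:+: w) →
    ∀ (n a : Fin 3) (r : W), n ≠ a → w = n :: a :: r →
      w = alt n a w.length ∨ ∃ m v, 2 ≤ m ∧ w = alt n a m ++ third n a :: v := by
  intro L
  induction L with
  | zero =>
    intro w hw _ n a r _ h
    rw [h] at hw
    simp at hw
  | succ L ih =>
    intro w hw hne n a r hna h
    match r, h with
    | [], h => exact Or.inl (by rw [h]; rfl)
    | c :: r, h =>
      by_cases hc : c = n
      · have h' : a :: c :: r <:+: w := ⟨[n], [], by rw [h]; simp⟩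
        have hl : (a :: c :: r).length ≤ L := by
          rw [h] at hw
          simp only [List.length_cons] at hw ⊢
          omega
        rcases ih (a :: c :: r) hl (fun x hx => hne x (hx.trans h')) a n r hna.symm (by rw [hc])
          with h1 | ⟨m, v, hm, h1⟩
        · left
          have : w = n :: (a :: c :: r) := h
          rw [this, List.length_cons, alt_succ, ← h1]
        · right
          refine ⟨m + 1, v, by omega, ?_⟩
          rw [h, alt_succ, List.cons_append, third_comm n a, ← h1]
      · have hca : c ≠ a := by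
          rintro rfl
          exact hne c ⟨[n], r, by rw [h]; simp⟩
        right
        refine ⟨2, r, le_refl 2, ?_⟩
        rw [h, eq_third n a c hna hc hca]
        rfl

theorem third_lst (n a : Fin 3) (k : ℕ) (h : n ≠ a) : lst n a k ≠ third n a := by
  rcases lst_mem n a k with e | e <;> rw [e]
  · exact (third_ne n a h).1.symm
  · exact (third_ne n a h).2.symm

/-- cutting a canonical word -/
theorem cut (M : Fin 3 → Fin 3 → ℕ) (hM : ∀ i j, i ≠ j → 2 ≤ M i j) :
    ∀ (L : ℕ) (w : W), w.length ≤ L → Good M w → ∀ (n a : Fin 3) (r : W) (f : Bool), n ≠ a →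
      w = n :: a :: r → (f = true → ∀ v, r ≠ third n a :: v) →
      ∃ (ms : List ℕ) (i j : Fin 3) (k : ℕ), i ≠ j ∧ k ≤ M i j ∧ okD M f n a ms ∧
        w = bwD n a ms ++ alt i j k := by
  intro L
  induction L with
  | zero =>
    intro w hw _ n a r f _ h
    rw [h] at hw
    simp at hw
  | succ L ih =>
    intro w hw hg n a r f hna h hf
    have hle : ∀ k v, w = alt n a k ++ v → k ≤ M n a := by
      intro k v hk
      by_contra hcon
      push Not at hcon
      obtain ⟨d, rfl⟩ : ∃ d, k = M n a + 1 + d := ⟨k - (M n a + 1), by omega⟩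
      refine hg.run n a hna ⟨[], (if (M n a + 1) % 2 = 0 then alt n a d else alt a n d) ++ v, ?_⟩
      rw [hk, alt_add n a (M n a + 1) d, List.nil_append, List.append_assoc]
    rcases prefix_alt w.length w le_rfl hg.ne n a r hna h with h1 | ⟨m, v, hm, h1⟩
    · refine ⟨[], n, a, w.length, hna, ?_, trivial, ?_⟩
      · exact hle w.length [] (by rw [List.append_nil]; exact h1)
      · show w = [] ++ alt n a w.length
        rw [List.nil_append]
        exact h1
    · obtain ⟨k, rfl⟩ : ∃ k, m = k + 2 := ⟨m - 2, by omega⟩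
      set b := third n a with hb
      have hmM : k + 2 ≤ M n a := hle _ _ h1
      -- the rest of the word
      have h2 : w = alt n a (k + 1) ++ (lst n a (k + 1) :: b :: v) := by
        rw [h1, alt_last n a (k + 1)]
        simp
      have hin : (lst n a (k + 1) :: b :: v) <:+: w := ⟨alt n a (k + 1), [], by rw [h2]; simp⟩
      have hlb : lst n a (k + 1) ≠ b := third_lst n a (k + 1) hna
      have hl : (lst n a (k + 1) :: b :: v).length ≤ L := by
        have : w.length = (k + 1) + (lst n a (k + 1) :: b :: v).length := by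
          conv_lhs => rw [h2]
          rw [List.length_append, alt_length]
        omega
      have hf' : decide (k + 2 = M n a) = true →
          ∀ v', v ≠ third (lst n a (k + 1)) b :: v' := by
        intro hd v' hv'
        have hMk : M n a = k + 2 := (of_decide_eq_true hd).symm
        have hbn := third_ne n a hna
        refine hg.full n a b hna hbn.1 hbn.2 k hMk ⟨[], v', ?_⟩
        have e : third (lst n a (k + 1)) b = lst n a k := by
          symm
          refine eq_third _ _ _ hlb ?_ (third_lst n a k hna)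
          rw [lst_succ]
          exact lst_ne hna k
        rw [h1, hv', e]
        simp
      obtain ⟨ms, i, j, q, hij, hq, hok, hw2⟩ := ih _ hl (hg.of_infix hin) _ _ v
        (decide (k + 2 = M n a)) hlb rfl hf'
      refine ⟨(k + 2) :: ms, i, j, q, hij, hq, ⟨⟨by omega, hmM, ?_⟩, ?_⟩, ?_⟩
      · intro hft
        by_contra hcon
        have hk0 : k = 0 := by omega
        subst hk0
        have : r = third n a :: v := by
          have h3 : n :: a :: r = n :: a :: (third n a :: v) := by
            rw [← h, h1]; rfl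
          simpa using h3
        exact hf hft v this
      · show okD M (decide (k + 2 = M n a)) (lst n a (k + 2 - 1)) (third n a) ms
        have e : k + 2 - 1 = k + 1 := by omega
        rw [e]
        exact hok
      · show w = (alt n a (k + 2 - 1) ++ bwD (lst n a (k + 2 - 1)) (third n a) ms) ++ alt i j q
        have e : k + 2 - 1 = k + 1 := by omega
        rw [e, List.append_assoc, ← hw2]
        exact h2

theorem ne_succ : ∀ x : Fin 3, x ≠ x + 1 := by decide

/-- **Canonical words.** Every word is equivalent to a word made of accepted runs followed by a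
short alternating word. -/
theorem canonical (M : Fin 3 → Fin 3 → ℕ) (E : W → W → Prop) (hE : Cong M E)
    (hM : ∀ i j, i ≠ j → 2 ≤ M i j) (hs : ∀ i j, M i j = M j i) (w : W) :
    ∃ (n a : Fin 3) (ms : List ℕ) (i j : Fin 3) (k : ℕ), n ≠ a ∧ i ≠ j ∧ k ≤ M i j ∧
      okD M false n a ms ∧ E w (bwD n a ms ++ alt i j k) := by
  obtain ⟨u, hu, hg⟩ := exists_good M E hE hM hs w
  match u, hu, hg with
  | [], hu, _ =>
    exact ⟨0, 1, [], 0, 1, 0, by decide, by decide, Nat.zero_le _, trivial, hu⟩
  | [x], hu, _ =>
    have hx : x ≠ x + 1 := ne_succ x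
    refine ⟨x, x + 1, [], x, x + 1, 1, hx, hx, ?_, trivial, hu⟩
    have := hM x (x + 1) hx
    omega
  | n :: a :: r, hu, hg =>
    have hna : n ≠ a := by
      rintro rfl
      exact hg.ne n ⟨[], r, by simp⟩
    obtain ⟨ms, i, j, k, hij, hk, hok, he⟩ := cut M hM _ (n :: a :: r) le_rfl hg n a r false hna rfl
      (by simp)
    exact ⟨n, a, ms, i, j, k, hna, hij, hk, hok, he ▸ hu⟩

end Pool.Agent.Helper21.C75
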